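import Pool.Agent.U375.DS.Classes
import Pool.Agent.N502.FR.Low

/-!
# Posets whose long intervals are ordinal sums: discrete spectrum and attained minima

`SumIntervals B P`: every open interval of `P` which contains a chain with more than `B` elements is
the ordinal sum of two nonempty posets.  For `B = 1` this holds for all posets whose cover graph is a
forest; for `B ≥ 1` for all posets in whose cover graph any two vertices joined by a path with more
than `B` inner vertices are separated by a third vertex.

1. A poset in this class which is not an ordinal sum of two nonempty posets and has at least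
   `(B + 1) exp (C log(2/ε)³ / ε⁴)` elements has balance constant at least `1/2 - ε`.
2. Only finitely many numbers below `1/2 - ε` are balance constants of posets of this class.
3. In every subclass `𝒢` which is inherited by the ordinal summands and contains the rooted forests,
   the infimum of the balance constants of the members of width `w` is a minimum, attained at a poset
   with fewer than `(B + 1) exp (C w⁴ log(w + 1)³)` elements.

Proof.  By the starting theorem `ManyIncomparable` a poset of balance constant less than `1/2 - ε` is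
`K`-thin.  Let `P` be `K`-thin, in the class, not an ordinal sum, and let `(x, z)` be an open interval
with many elements.  Among the lower parts of the decompositions of `(x, z)` into an ordinal sum
let `A` be the largest one with fewer than `K` elements and `A'` the smallest one with at least `K`
elements.  The difference `A' \ A` is an open interval and is not an ordinal sum, so it has no
chain with more than `B` elements and at most `K B` elements.  So both `A'` and `(x, z) \ A'` have at
least `K` elements, every element of `P` is comparable to an element of each of them, and it follows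
that `P` is the ordinal sum of the set of all elements below `(x, z) \ A'` and of its complement.
-/

set_option autoImplicit false

namespace Pool.Agent.Results.MP_c890a7_co.DiscreteSpectrum

open Pool.Agent.U375.DS
open Pool.Agent.N502.FR (TFor)
open Pool.Agent.H931R3.Bal (HasWidth)
open Pool.Agent.H13R3.WB (balance)

/-- the starting files contain a rooted forest of width `w` with balance constant at most
`1 / 2 - 1 / (12 w - 8)` -/
lemma exists_rooted {w : ℕ} (hw : 1 ≤ w) : ∃ (P : Type) (_ : Fintype P) (_ : PartialOrder P),
    TFor P ∧ HasWidth P w ∧ balance P ≤ 1 / 2 - 1 / (12 * (w : ℝ) - 8) := by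
  obtain ⟨n, X, hn, -, ⟨P, i1, i2, h1, h2, h3, h4, -⟩, -, -⟩ :=
    Pool.Agent.N502.FR.low_family_F w hw
  have hne : Nonempty P := Pool.Agent.N502.IO.nonempty_of_width (w := w) h2 hw
  exact ⟨P, i1, i2, h4, h2, Pool.Agent.N502.IO.balance_of_good
    (Pool.Agent.N502.IO.low_eps hw) h3⟩

theorem result : ∃ C : ℝ, 0 < C ∧
    (∀ (B : ℕ) (ε : ℝ), 0 < ε → ε ≤ 1 / 2 →
      (∀ (P : Type) [Fintype P] [PartialOrder P], SumIntervals B P → ¬ OrdSum P →
        (B + 1) * Real.exp (C * Real.log (2 / ε) ^ 3 / ε ^ 4) ≤ Fintype.card P →
        1 / 2 - ε ≤ balance P) ∧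
      {d : ℝ | d < 1 / 2 - ε ∧ ∃ (P : Type) (_ : Fintype P) (_ : PartialOrder P),
        SumIntervals B P ∧ balance P = d}.Finite) ∧
    (∀ (B : ℕ) (𝒢 : (P : Type) → [PartialOrder P] → Prop), Inherited 𝒢 →
      (∀ (P : Type) [Finite P] [PartialOrder P], 𝒢 P → SumIntervals B P) →
      (∀ (P : Type) [Finite P] [PartialOrder P], TFor P → 𝒢 P) →
      ∀ w : ℕ, 1 ≤ w → ∃ (P : Type) (_ : Fintype P) (_ : PartialOrder P),
        𝒢 P ∧ HasWidth P w ∧ ¬ OrdSum P ∧
        Fintype.card P < (B + 1) * Real.exp (C * w ^ 4 * Real.log (w + 1) ^ 3) ∧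
        balance P ≤ 1 / 2 - 1 / (12 * w - 8) ∧
        ∀ (Q : Type) [Fintype Q] [PartialOrder Q], 𝒢 Q → HasWidth Q w → balance P ≤ balance Q) ∧
    (∀ B : ℕ, 1 ≤ B →
      (Inherited (fun P _ => SumIntervals B P) ∧
        ∀ (P : Type) [Finite P] [PartialOrder P], TFor P → SumIntervals B P) ∧
      (Inherited (fun P _ => PathsSeparated B P) ∧
        (∀ (P : Type) [Finite P] [PartialOrder P], PathsSeparated B P → SumIntervals B P) ∧
        ∀ (P : Type) [Finite P] [PartialOrder P], TFor P → PathsSeparated B P)) ∧
    Inherited (fun P _ => Forest P) ∧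
    (∀ (P : Type) [Finite P] [PartialOrder P], Forest P → SumIntervals 1 P) ∧
    (∀ (P : Type) [Finite P] [PartialOrder P], TFor P → Forest P) := by
  obtain ⟨C, hC, h⟩ := irreducible_balance
  have hC' : C ≤ C * 216 * 20736 := by nlinarith
  refine ⟨C * 216 * 20736, by positivity, fun B ε hε hε2 => ⟨?_, ?_⟩, ?_, ?_, inherited_forest,
    fun P _ _ hP => sumIntervals_of_forest hP, fun P _ _ hP => forest_of_tree hP⟩
  · intro P _ _ h1 h2 h3
    refine h B ε hε hε2 P h1 h2 (le_trans ?_ h3)
    have := bnd_mono hε hε2 hC'
    unfold bnd at *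
    gcongr
  · exact finite_below (C := C) (B := B) (inherited_sumIntervals B)
      (fun P _ _ h1 h2 h3 => h B ε hε hε2 P h1 h2 h3)
  · intro B 𝒢 hG hB hT w hw
    have hw' : (1 : ℝ) ≤ w := by exact_mod_cast hw
    have hε : (0 : ℝ) < 1 / (12 * w) := by positivity
    have hε2 : (1 : ℝ) / (12 * w) ≤ 1 / 2 := by
      apply one_div_le_one_div_of_le <;> linarith
    have h2 : 1 / (12 * (w : ℝ)) < 1 / (12 * (w : ℝ) - 8) := by
      apply one_div_lt_one_div_of_lt <;> linarith
    obtain ⟨P0, i1, i2, p1, p2, p3⟩ := exists_rooted hw
    obtain ⟨P, j1, j2, q1, q2, q3, q4, q5, q6⟩ := exists_min (C := C) (ε := 1 / (12 * w)) (B := B)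
      hG (fun P _ _ h1 h2 h3 => h B _ hε hε2 P (hB P h1) h2 h3) hw
      ⟨P0, i1, i2, hT P0 p1, p2, by linarith⟩
    refine ⟨P, j1, j2, q1, q2, q3, lt_of_lt_of_le q4 ?_, ?_, fun Q _ _ => q6 Q⟩
    · have := bnd_width hC hw
      gcongr
    · exact (@q6 P0 i1 i2 (hT P0 p1) p2).trans p3
  · intro B hB
    refine ⟨⟨inherited_sumIntervals B, fun P _ _ hP =>
      (sumIntervals_of_forest (forest_of_tree hP)).mono hB⟩, inherited_separated B,
      fun P _ _ hP => sumIntervals_of_separated hB hP, fun P _ _ hP =>
      (separated_of_forest (forest_of_tree hP)).mono hB⟩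

end Pool.Agent.Results.MP_c890a7_co.DiscreteSpectrum
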