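import Mathlib
import Pool.Agent.U678.BC.End

/-!
# The minimal balance constants of posets of width `w` are computable

`dW w` is the number `δ_w` of the problem, and `mW M w` is the minimum of the balance constants of the
finitely many posets of width `w` with at most `M` elements.  Let
`N(η) = exp (exp (exp (B log(2/η)³ / η⁴)))`, with an absolute constant `B`.

1. Every poset of width `w` has a poset of width `w` with at most `max (w, N(η))` elements whose
   balance constant differs by at most `η`.  The bound `N(η)` does not depend on `w`.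
2. So `δ_w ≤ mW (max (w, N(η))) w ≤ δ_w + η` for all `w ≥ 1`: the numbers `δ_w` can be computed to any
   precision, uniformly in the width.
3. The inequality `δ_w < δ_{w+1}` of the problem holds if and only if for some `η` the finite
   computation gives `mW (max (w, N(η))) w + η < mW (max (w + 1, N(η))) (w + 1)`: every single
   inequality of the problem, if true, has a finite proof.

The proof combines three things: a poset in which some element is incomparable to at least
`exp (B' log(2/η)³ / η⁴)` elements has balance constant at least `1/2 - η` (starting files); in a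
`K`-thin poset the probability `P(x before y)` is determined up to an exponentially small error by
the poset induced on a window around `x` and `y` (contraction of the transfer operator by the factor
`1 - (K + 1) ^ (-2 K)`); and the part of a thin poset between two places with the same surroundings
can be left out without changing the windows, the two ends, and the largest antichains.
-/

set_option autoImplicit false

namespace Pool.Agent.Results.MP_c890a7_co.FiniteApproximation

open Pool.Agent.H13R3.WB Pool.Agent.H931R3.Bal Pool.Agent.U678.BC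

/-- the number `δ_w` of the problem -/
noncomputable def dW (w : ℕ) : ℝ :=
  sInf {d : ℝ | ∃ (P : Type) (_ : Fintype P) (_ : PartialOrder P), HasWidth P w ∧ balance P = d}

/-- the minimum of the balance constants of the posets of width `w` with at most `M` elements -/
noncomputable def mW (M : ℝ) (w : ℕ) : ℝ :=
  sInf {d : ℝ | ∃ (P : Type) (_ : Fintype P) (_ : PartialOrder P), HasWidth P w ∧
    (Fintype.card P : ℝ) ≤ M ∧ balance P = d}

/-- the bound `N(η)` -/
noncomputable def bound (B η : ℝ) : ℝ :=
  Real.exp (Real.exp (Real.exp (B * (Real.log (2 / η) ^ 3 / η ^ 4))))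

lemma bdd_m (M : ℝ) (w : ℕ) : BddBelow {d : ℝ | ∃ (P : Type) (_ : Fintype P) (_ : PartialOrder P),
    HasWidth P w ∧ (Fintype.card P : ℝ) ≤ M ∧ balance P = d} := by
  refine ⟨0, ?_⟩
  rintro d ⟨P, _, _, _, _, rfl⟩
  exact balance_nonneg'

lemma bdd_d (w : ℕ) : BddBelow {d : ℝ | ∃ (P : Type) (_ : Fintype P) (_ : PartialOrder P),
    HasWidth P w ∧ balance P = d} := by
  refine ⟨0, ?_⟩
  rintro d ⟨P, _, _, _, rfl⟩
  exact balance_nonneg'

theorem result : ∃ B : ℝ, 0 < B ∧
    (∀ η : ℝ, 0 < η → η ≤ 1 / 2 → ∀ w : ℕ, 1 ≤ w →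
      (∀ (P : Type) [Fintype P] [PartialOrder P], HasWidth P w →
        ∃ (Q : Type) (_ : Fintype Q) (_ : PartialOrder Q), HasWidth Q w ∧
          (Fintype.card Q : ℝ) ≤ max (w : ℝ) (bound B η) ∧ |balance Q - balance P| ≤ η) ∧
      dW w ≤ mW (max (w : ℝ) (bound B η)) w ∧
      mW (max (w : ℝ) (bound B η)) w ≤ dW w + η) ∧
    ∀ w : ℕ, 1 ≤ w → (dW w < dW (w + 1) ↔ ∃ η : ℝ, 0 < η ∧ η ≤ 1 / 2 ∧
      mW (max (w : ℝ) (bound B η)) w + η <
        mW (max ((w + 1 : ℕ) : ℝ) (bound B η)) (w + 1)) := by
  obtain ⟨B, hB, h⟩ := red_W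
  have key : ∀ η : ℝ, 0 < η → η ≤ 1 / 2 → ∀ w : ℕ, 1 ≤ w →
      dW w ≤ mW (max (w : ℝ) (bound B η)) w ∧ mW (max (w : ℝ) (bound B η)) w ≤ dW w + η := by
    intro η h0 h1 w hw
    constructor
    · refine le_csInf ⟨balance (AC w), AC w, inferInstance, inferInstance, width_AC, ?_, rfl⟩ ?_
      · rw [card_AC]; exact le_max_left _ _
      · rintro d ⟨P, i1, i2, h2, _, rfl⟩
        exact csInf_le (bdd_d w) ⟨P, i1, i2, h2, rfl⟩
    · have h2 : mW (max (w : ℝ) (bound B η)) w - η ≤ dW w := by
        refine le_csInf ⟨balance (AC w), AC w, inferInstance, inferInstance, width_AC, rfl⟩ ?_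
        rintro d ⟨P, i1, i2, h2, rfl⟩
        obtain ⟨Q, j1, j2, g1, g2, g3⟩ := @h η h0 h1 w hw P i1 i2 h2
        have h3 : mW (max (w : ℝ) (bound B η)) w ≤ balance Q :=
          csInf_le (bdd_m _ w) ⟨Q, j1, j2, g1, g2, rfl⟩
        rw [abs_le] at g3
        linarith
      linarith
  refine ⟨B, hB, fun η h0 h1 w hw => ⟨fun P i1 i2 hP => @h η h0 h1 w hw P i1 i2 hP,
    (key η h0 h1 w hw).1, (key η h0 h1 w hw).2⟩, fun w hw => ⟨fun hlt => ?_, ?_⟩⟩
  · have h3 : dW (w + 1) ≤ 1 / 2 := by
      have h4 : dW (w + 1) ≤ balance (AC (w + 1)) :=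
        csInf_le (bdd_d _) ⟨AC (w + 1), inferInstance, inferInstance, width_AC, rfl⟩
      exact h4.trans balance_le_half
    have h5 : 0 ≤ dW w := by
      refine le_csInf ⟨balance (AC w), AC w, inferInstance, inferInstance, width_AC, rfl⟩ ?_
      rintro d ⟨P, _, _, _, rfl⟩
      exact balance_nonneg'
    refine ⟨(dW (w + 1) - dW w) / 3, by linarith, by linarith, ?_⟩
    have h1 := (key ((dW (w + 1) - dW w) / 3) (by linarith) (by linarith) w hw).2
    have h2 := (key ((dW (w + 1) - dW w) / 3) (by linarith) (by linarith) (w + 1) (by omega)).1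
    linarith
  · rintro ⟨η, h0, h1, h2⟩
    have h3 := (key η h0 h1 w hw).1
    have h4 := (key η h0 h1 (w + 1) (by omega)).2
    linarith

end Pool.Agent.Results.MP_c890a7_co.FiniteApproximation
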