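import Pool.Agent.U959.KS.Width

/-!
# The minimal balance constants of posets of width `w`: `1/2 - δ_w ≤ C √(log log w / log w)`

With `δ_w` the infimum of the balance constants of the finite posets of width `w`, exactly as in the
problem: `δ_w ≥ 1/2 - ε` as soon as `w ≥ exp (C log (2/ε) / ε²)`, so that
`1/2 - δ_w ≤ C √(log log w / log w)`.  Hence `δ_w < δ_v` for all `v ≥ exp (C w² / log (w+1))`, and
there is a strict increase `δ_u < δ_{u+1}` with `w ≤ u ≤ exp (C w² / log (w+1))`, for every `w ≥ 1`.
(The starting results have `exp (C log (2/ε)³ / ε⁴)`, the rate `(log log w)^(3/4) / (log w)^(1/4)`,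
and `exp (C w⁴ log (w+1)³)`.)

New is the bound for the number `N` of elements of a poset without nearly balanced pairs which are
pairwise far apart and close to a given element: `N ≤ exp (C log (1/ε) / ε²)`.  It follows from a
statement on random variables `X_1, …, X_N` with `r` values: if
`|P(X_i < X_j) - P(X_j < X_i)| ≥ ε` for all `i ≠ j` then `log N ≤ 64 (log r) / ε² + log 4`.  Proof:
the tournament of the signs has a vertex `p` of large in- and out-degree; the empirical distributions
of the values of the vertices before and after `p` are distinguished by the function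
`sign (· - X_p)`, whose means differ by `2 ε`, so by Pinsker's inequality the partition gains `ε²` of
information; iterate, and compare with the total information, at most `log r`.  The rest is the proof
of the statement of Kahn and Saks in the starting files, with the new parameters.
-/

set_option autoImplicit false

namespace Pool.Agent.Results.MP_c890a7_co.SquareRootRate

theorem result : ∃ C : ℝ, 0 < C ∧
    ∀ δ : ℕ → ℝ,
      (∀ w : ℕ, δ w = sInf {d : ℝ | ∃ (n : ℕ) (r : Fin n → Fin n → Prop),
          (∀ a, r a a) ∧ (∀ a b c, r a b → r b c → r a c) ∧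
          (∀ a b, r a b → r b a → a = b) ∧
          (∃ s : Finset (Fin n), s.card = w ∧ ∀ a ∈ s, ∀ b ∈ s, a ≠ b → ¬ r a b) ∧
          (∀ s : Finset (Fin n), (∀ a ∈ s, ∀ b ∈ s, a ≠ b → ¬ r a b) → s.card ≤ w) ∧
          d = sSup {t : ℝ | ∃ x y : Fin n, ¬ r x y ∧ ¬ r y x ∧
            t = min
              ((Nat.card {σ : Equiv.Perm (Fin n) //
                  (∀ a b, r a b → σ a ≤ σ b) ∧ σ x < σ y} : ℝ) /
                (Nat.card {σ : Equiv.Perm (Fin n) // ∀ a b, r a b → σ a ≤ σ b} : ℝ))
              ((Nat.card {σ : Equiv.Perm (Fin n) //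
                  (∀ a b, r a b → σ a ≤ σ b) ∧ σ y < σ x} : ℝ) /
                (Nat.card {σ : Equiv.Perm (Fin n) // ∀ a b, r a b → σ a ≤ σ b} : ℝ))}}) →
      (∀ (ε : ℝ) (w : ℕ), 0 < ε → ε ≤ 1 / 2 →
        Real.exp (C * Real.log (2 / ε) / ε ^ 2) ≤ w → 1 / 2 - ε ≤ δ w) ∧
      (∀ w : ℕ, 16 ≤ w → 1 / 2 - C * √(Real.log (Real.log w) / Real.log w) ≤ δ w) ∧
      (∀ w v : ℕ, 1 ≤ w → Real.exp (C * (w : ℝ) ^ 2 / Real.log (w + 1)) ≤ v → δ w < δ v) ∧
      (∀ w : ℕ, 1 ≤ w → ∃ u : ℕ, w ≤ u ∧
        (u : ℝ) ≤ Real.exp (C * (w : ℝ) ^ 2 / Real.log (w + 1)) ∧ δ u < δ (u + 1)) :=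
  Pool.Agent.U959.KS.main3

end Pool.Agent.Results.MP_c890a7_co.SquareRootRate
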