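import Mathlib
import Pool.Agent.U276.TP.Grow
import Pool.Agent.U276.TP.V5

/-!
# Minimal balance constants of `(3+1)`-free posets by width

`dT w` is the infimum of the balance constants of the `(3+1)`-free posets of width `w` (no elements
`a < b < c` and `d` incomparable to `a`, `b` and `c`).  Then

`0 = dT 1 < 1/3 = dT 2 < dT 3 ≤ 4/11 < 2/5 ≤ dT w` for all `w ≥ 40000`, and there is `ε > 0` with
`1/3 + ε ≤ dT w` for all `w ≥ 3`.

Proof of the bound for large width.  Suppose that a `(3+1)`-free poset of width `w` has balance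
constant less than `2/5`.  If `k` elements have the same lower elements then, by a negative
correlation inequality and the lower bound for the differences of the average heights of unbalanced
pairs, at least about `k ^ 2 / 25 - k` elements are above some but not all of them; so the tangles (the
components of the relation that the sets of upper elements are incomparable, together with the
elements above some but not all of the component) have at most 42 elements on both sides.  Hence each
element of an antichain with `w` elements is related to at most 168 other ones by crossing upper sets,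
crossing lower sets, or by being on different sides of a tangle, and there are `w / 169` pairwise
unrelated elements.  Their sets of upper and of lower elements are nested, everything below one of them
is below everything above another one, and each of them is incomparable to at most `2 w` elements; so
two consecutive ones are balanced up to the quotient of the harmonic number of `2 w` by their number.
-/

set_option autoImplicit false

open Finset

namespace Pool.Agent.Results.MP_c890a7_co.ThreePlusOneFree

open Pool.Agent.H13R3.WB Pool.Agent.H931R3.Bal Pool.Agent.R636.BG Pool.Agent.N175.SO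
open Pool.Agent.TH447.KS Pool.Agent.U276.TP

/-- there are no `a < b < c` and `d` incomparable to `a`, `b` and `c` -/
def IsFree (P : Type) [PartialOrder P] : Prop :=
  ¬ ∃ a b c d : P, a < b ∧ b < c ∧
    (¬ a ≤ d ∧ ¬ d ≤ a) ∧ (¬ b ≤ d ∧ ¬ d ≤ b) ∧ (¬ c ≤ d ∧ ¬ d ≤ c)

/-- infimum of the balance constants of the `(3+1)`-free posets of width `w` -/
noncomputable def dT (w : ℕ) : ℝ :=
  sInf {d : ℝ | ∃ (P : Type) (_ : Fintype P) (_ : PartialOrder P), IsFree P ∧
    HasWidth P w ∧ balance P = d}

lemma IsFree.free {P : Type} [PartialOrder P] (h : IsFree P) : Free31 P := by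
  intro a b c d hab hbc
  by_contra hcon
  push Not at hcon
  obtain ⟨h1, h2⟩ := hcon
  have h3 : a ≠ d := by
    rintro rfl
    exact h2 (hab.trans hbc)
  have h4 : c ≠ d := by
    rintro rfl
    exact h1 (hab.trans hbc)
  refine h ⟨a, b, c, d, hab, hbc, ⟨fun h5 => h1 (lt_of_le_of_ne h5 h3),
    fun h5 => h2 (h5.trans_lt (hab.trans hbc))⟩, ⟨fun h5 => h1 (hab.trans_le h5),
    fun h5 => h2 (h5.trans_lt hbc)⟩, ⟨fun h5 => h1 ((hab.trans hbc).trans_le h5),
    fun h5 => h2 (lt_of_le_of_ne h5 h4.symm)⟩⟩

lemma isFree_of {P : Type} [PartialOrder P] (h : Free31 P) : IsFree P := by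
  rintro ⟨a, b, c, d, hab, hbc, ⟨h1, -⟩, -, ⟨-, h2⟩⟩
  rcases h a b c d hab hbc with h3 | h3
  · exact h1 h3.le
  · exact h2 h3.le

lemma exists_free (w : ℕ) : ∃ (P : Type) (_ : Fintype P) (_ : PartialOrder P),
    IsFree P ∧ HasWidth P w := by
  obtain ⟨P, i1, i2, ⟨g, hg⟩, h2⟩ := exists_semi w
  refine ⟨P, i1, i2, isFree_of ?_, h2⟩
  intro a b c d hab hbc
  rw [hg] at hab hbc
  rw [hg, hg]
  by_contra hcon
  push Not at hcon
  linarith

lemma dT_ge {w : ℕ} {c : ℝ} (h : ∀ (P : Type) [Fintype P] [PartialOrder P],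
    IsFree P → HasWidth P w → c ≤ balance P) : c ≤ dT w := by
  unfold dT
  apply le_csInf
  · obtain ⟨P, i1, i2, h1, h2⟩ := exists_free w
    exact ⟨_, P, i1, i2, h1, h2, rfl⟩
  · rintro d ⟨P, _, _, h1, h2, rfl⟩
    exact h P h1 h2

lemma dT_le {w : ℕ} (hw : 1 ≤ w) (P : Type) [Fintype P] [PartialOrder P] (h1 : IsFree P)
    (h2 : HasWidth P w) : dT w ≤ balance P := by
  unfold dT
  apply csInf_le
  · refine ⟨0, ?_⟩
    rintro d ⟨Q, _, _, h3, h4, rfl⟩
    have := HasWidth.nonempty h4 hw
    exact balance_nonneg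
  · exact ⟨P, inferInstance, inferInstance, h1, h2, rfl⟩

theorem dT_one : dT 1 = 0 := by
  apply le_antisymm
  · obtain ⟨P, i1, i2, h1, h2⟩ := exists_free 1
    have hne := HasWidth.nonempty h2 le_rfl
    refine (dT_le le_rfl P h1 h2).trans ?_
    rw [balance_chain (total_of_width_one h2)]
  · apply dT_ge
    intro P _ _ _ h2
    have := HasWidth.nonempty h2 le_rfl
    exact balance_nonneg

lemma EE_free : IsFree EE := by
  have h : ∀ a b c : EE, ¬ (a ≤ b ∧ a ≠ b ∧ b ≤ c ∧ b ≠ c) := by decide +kernel
  rintro ⟨a, b, c, d, hab, hbc, -⟩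
  exact h a b c ⟨hab.le, hab.ne, hbc.le, hbc.ne⟩

/-- **Minimal balance constants of `(3+1)`-free posets by width.** -/
theorem result :
    dT 1 = 0 ∧ dT 2 = 1 / 3 ∧ dT 3 ≤ 4 / 11 ∧
    (∃ ε : ℝ, 0 < ε ∧ ∀ w : ℕ, 3 ≤ w → 1 / 3 + ε ≤ dT w) ∧
    ∀ w : ℕ, 40000 ≤ w → 2 / 5 ≤ dT w ∧
      ∀ (P : Type) [Fintype P] [PartialOrder P], IsFree P → HasWidth P w → 2 / 5 ≤ balance P := by
  obtain ⟨ε₄, h4, g4⟩ := pair_gap
  obtain ⟨ε, h0, m1, m2⟩ : ∃ ε : ℝ, 0 < ε ∧ ε ≤ ε₄ ∧ ε ≤ 1 / 12000 :=
    ⟨min ε₄ (1 / 12000), by positivity, min_le_left _ _, min_le_right _ _⟩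
  have good : Good ε := fun P _ _ a b hab =>
    ((g4 P).1 a b hab).imp id (fun h => by linarith)
  have gap : ∀ (P : Type) [Fintype P] [PartialOrder P] [Nonempty P], IsFree P →
      InD P ∨ 1 / 3 + ε ≤ balance P := fun P _ _ _ hP => free31_gap good m2 hP.free
  refine ⟨dT_one, ?_, ?_, ⟨ε, h0, fun w hw => ?_⟩, fun w hw => ⟨?_, ?_⟩⟩
  · apply le_antisymm
    · exact (dT_le (by norm_num) EE EE_free width_EE).trans balance_EE_le
    · apply dT_ge
      intro P _ _ h1 h2
      have := HasWidth.nonempty h2 (by norm_num)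
      rcases gap P h1 with h | h
      · rcases InD_third h with h3 | h3
        · exact absurd h3 (not_total_of_width le_rfl h2)
        · exact h3
      · linarith
  · exact (dT_le (by norm_num) V5 (isFree_of V5_free) V5_width).trans V5_balance
  · apply dT_ge
    intro P _ _ h1 h2
    have := HasWidth.nonempty h2 (by omega)
    rcases gap P h1 with h | h
    · exfalso
      obtain ⟨⟨s, hs, hsc⟩, _⟩ := h2
      have := InD_width_le h s hs
      omega
    · exact h
  · exact dT_ge fun P _ _ h1 h2 => free31_wide h1.free hw h2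
  · exact fun P _ _ h1 h2 => free31_wide h1.free hw h2

end Pool.Agent.Results.MP_c890a7_co.ThreePlusOneFree
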